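import Pool.Agent.Lib.MP_dedb2f_an.Cocycle

set_option autoImplicit false

namespace Pool.Agent.Lib.MP_dedb2f_an

open Bundle Manifold Set Filter Topology

variable {E : Type*} [NormedAddCommGroup E] [NormedSpace ℝ E]
  {M : Type*} [TopologicalSpace M] [ChartedSpace E M] [IsManifold 𝓘(ℝ, E) 1 M] {U : Type*}

/-- derivative of the chart at `a` -/
noncomputable def TT (E : Type*) [NormedAddCommGroup E] [NormedSpace ℝ E] [ChartedSpace E M]
    [IsManifold 𝓘(ℝ, E) 1 M] (a y : M) : E →L[ℝ] E :=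
  (trivializationAt E (TangentSpace 𝓘(ℝ, E)) a).continuousLinearMapAt ℝ y

/-- derivative of the inverse chart at `a` -/
noncomputable def SS (E : Type*) [NormedAddCommGroup E] [NormedSpace ℝ E] [ChartedSpace E M]
    [IsManifold 𝓘(ℝ, E) 1 M] (a y : M) : E →L[ℝ] E :=
  (trivializationAt E (TangentSpace 𝓘(ℝ, E)) a).symmL ℝ y

theorem TT_SS {a y : M} (h : y ∈ (chartAt E a).source) (w : E) : TT E a y (SS E a y w) = w :=
  (trivializationAt E (TangentSpace 𝓘(ℝ, E)) a).continuousLinearMapAt_symmL (R := ℝ) h w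

theorem SS_TT {a y : M} (h : y ∈ (chartAt E a).source) (w : E) : SS E a y (TT E a y w) = w :=
  (trivializationAt E (TangentSpace 𝓘(ℝ, E)) a).symmL_continuousLinearMapAt (R := ℝ) h w

theorem hasMFDerivAt_chart {a y : M} (h : y ∈ (chartAt E a).source) :
    HasMFDerivAt 𝓘(ℝ, E) 𝓘(ℝ, E) (chartAt E a) y (TT E a y) := by
  have h1 := (mdifferentiableAt_extChartAt (I := 𝓘(ℝ, E)) h).hasMFDerivAt
  rw [← TangentBundle.continuousLinearMapAt_trivializationAt h] at h1
  exact h1

theorem hasMFDerivAt_chart_symm {a y : M} (h : y ∈ (chartAt E a).source) :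
    HasMFDerivAt 𝓘(ℝ, E) 𝓘(ℝ, E) (chartAt E a).symm (chartAt E a y) (SS E a y) := by
  have h1 := ((mdifferentiable_chart (I := 𝓘(ℝ, E)) a).mdifferentiableAt_symm
    ((chartAt E a).map_source h)).hasMFDerivAt
  have h2 := TangentBundle.symmL_trivializationAt (I := 𝓘(ℝ, E)) h
  rw [modelWithCornersSelf_coe, range_id, mfderivWithin_univ] at h2
  have h3 : SS E a y = mfderiv 𝓘(ℝ, E) 𝓘(ℝ, E) (chartAt E a).symm (chartAt E a y) := h2
  rw [h3]
  exact h1

/-- the derivative of a map read in charts -/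
noncomputable def DF (g : M → M) (a b : M) (z : E) : E →L[ℝ] E :=
  (TT E b (g ((chartAt E a).symm z))).comp
    ((D g ((chartAt E a).symm z)).comp (SS E a ((chartAt E a).symm z)))

theorem hasFDerivAt_loc {g : M → M} (hg : MDifferentiable 𝓘(ℝ, E) 𝓘(ℝ, E) g) {a b : M} {z : E}
    (hz : z ∈ (chartAt E a).target) (hb : g ((chartAt E a).symm z) ∈ (chartAt E b).source) :
    HasFDerivAt (fun w => chartAt E b (g ((chartAt E a).symm w))) (DF g a b z) z := by
  have hy := (chartAt E a).map_target hz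
  have h1 := hasMFDerivAt_chart_symm hy
  rw [(chartAt E a).right_inv hz] at h1
  have h2 := (hg ((chartAt E a).symm z)).hasMFDerivAt
  have h3 := hasMFDerivAt_chart hb
  have h4 := h3.comp z (h2.comp z h1)
  exact hasMFDerivAt_iff_hasFDerivAt.1 h4

omit [IsManifold 𝓘(ℝ, E) 1 M] in
theorem isOpen_W [TopologicalSpace U] (f : U → Diffeomorph 𝓘(ℝ, E) 𝓘(ℝ, E) M M 1)
    (hf : Continuous (fun p : U × M => f p.1 p.2)) (a : M) {O : Set M} (hO : IsOpen O) :
    IsOpen {q : U × E | q.2 ∈ (chartAt E a).target ∧ f q.1 ((chartAt E a).symm q.2) ∈ O} := by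
  have h1 : ContinuousOn (fun q : U × E => f q.1 ((chartAt E a).symm q.2))
      (Prod.snd ⁻¹' (chartAt E a).target) :=
    hf.comp_continuousOn (f := fun q : U × E => (q.1, (chartAt E a).symm q.2))
      (continuousOn_fst.prodMk ((chartAt E a).continuousOn_symm.comp continuousOn_snd
        (fun q hq => hq)))
  exact h1.isOpen_inter_preimage ((chartAt E a).open_target.preimage continuous_snd) hO

omit [IsManifold 𝓘(ℝ, E) 1 M] in
theorem continuousOn_F [TopologicalSpace U] (f : U → Diffeomorph 𝓘(ℝ, E) 𝓘(ℝ, E) M M 1)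
    (hf : Continuous (fun p : U × M => f p.1 p.2)) (a b : M) :
    ContinuousOn (fun q : U × E => chartAt E b (f q.1 ((chartAt E a).symm q.2)))
      {q : U × E | q.2 ∈ (chartAt E a).target ∧
        f q.1 ((chartAt E a).symm q.2) ∈ (chartAt E b).source} := by
  refine (chartAt E b).continuousOn.comp ?_ (fun q hq => hq.2)
  exact hf.comp_continuousOn (f := fun q : U × E => (q.1, (chartAt E a).symm q.2))
      (continuousOn_fst.prodMk ((chartAt E a).continuousOn_symm.comp continuousOn_snd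
        (fun q hq => hq.1)))

theorem continuousOn_DF [FiniteDimensional ℝ E] [TopologicalSpace U]
    (f : U → Diffeomorph 𝓘(ℝ, E) 𝓘(ℝ, E) M M 1)
    (hD : Continuous (fun p : U × TangentBundle 𝓘(ℝ, E) M =>
      tangentMap 𝓘(ℝ, E) 𝓘(ℝ, E) (f p.1) p.2)) (a b : M) :
    ContinuousOn (fun q : U × E => DF (f q.1) a b q.2)
      {q : U × E | q.2 ∈ (chartAt E a).target ∧
        f q.1 ((chartAt E a).symm q.2) ∈ (chartAt E b).source} := by
  rw [continuousOn_clm_apply]
  intro w
  set ea := trivializationAt E (TangentSpace 𝓘(ℝ, E) : M → Type _) a with hea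
  set eb := trivializationAt E (TangentSpace 𝓘(ℝ, E) : M → Type _) b with heb
  have h1 : ContinuousOn (fun q : U × E => (TotalSpace.mk' E ((chartAt E a).symm q.2)
      (ea.symm ((chartAt E a).symm q.2) w) : TangentBundle 𝓘(ℝ, E) M))
      {q : U × E | q.2 ∈ (chartAt E a).target ∧
        f q.1 ((chartAt E a).symm q.2) ∈ (chartAt E b).source} := by
    refine ea.continuousOn_symm.comp (f := fun q : U × E => ((chartAt E a).symm q.2, w))
      (((chartAt E a).continuousOn_symm.comp continuousOn_snd (fun q hq => hq.1)).prodMk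
        continuousOn_const) (fun q hq => ⟨(chartAt E a).map_target hq.1, mem_univ _⟩)
  have h2 := hD.comp_continuousOn (continuousOn_fst.prodMk h1)
  have h3 := (eb.continuousOn.comp h2 (fun q hq => eb.mem_source.2 hq.2)).snd
  refine h3.congr (fun q hq => ?_)
  have e1 : SS E a ((chartAt E a).symm q.2) w = ea.symm ((chartAt E a).symm q.2) w :=
    ea.symmL_apply (R := ℝ) ((chartAt E a).map_target hq.1) w
  have e2 := eb.continuousLinearMapAt_apply_of_mem (R := ℝ) hq.2
    (D (E := E) (f q.1) ((chartAt E a).symm q.2) (SS E a ((chartAt E a).symm q.2) w))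
  refine Eq.trans e2 ?_
  rw [e1]
  rfl

section Riem

variable [RiemannianBundle (fun x : M => TangentSpace 𝓘(ℝ, E) x)]

/-- the Riemannian norm at `y` -/
noncomputable def nrm (y : M) (v : E) : ℝ := @norm (TangentSpace 𝓘(ℝ, E) y) _ v

omit [IsManifold 𝓘(ℝ, E) 1 M] in
theorem nrm_nonneg (y : M) (v : E) : 0 ≤ nrm y v := norm_nonneg (E := TangentSpace 𝓘(ℝ, E) y) v

omit [IsManifold 𝓘(ℝ, E) 1 M] in
theorem nrm_sub_le (y : M) (v w : E) : nrm y (v - w) ≤ nrm y v + nrm y w :=
  norm_sub_le (E := TangentSpace 𝓘(ℝ, E) y) v w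

theorem local_bound [IsContinuousRiemannianBundle E (fun x : M => TangentSpace 𝓘(ℝ, E) x)]
    (a : M) : ∃ C : ℝ, 0 < C ∧ ∀ᶠ y in 𝓝 a,
      (∀ v, ‖TT E a y v‖ ≤ C * nrm y v) ∧ ∀ w, nrm y (SS E a y w) ≤ C * ‖w‖ := by
  obtain ⟨C1, h1, h1'⟩ := eventually_norm_trivializationAt_lt E
    (fun x : M => TangentSpace 𝓘(ℝ, E) x) a
  obtain ⟨C2, h2, h2'⟩ := eventually_norm_symmL_trivializationAt_lt E
    (fun x : M => TangentSpace 𝓘(ℝ, E) x) a
  refine ⟨max C1 C2, lt_max_of_lt_left h1, ?_⟩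
  filter_upwards [h1', h2'] with y hy1 hy2
  constructor
  · intro v
    exact (ContinuousLinearMap.le_opNorm
      ((trivializationAt E (fun x : M => TangentSpace 𝓘(ℝ, E) x) a).continuousLinearMapAt ℝ y)
        v).trans
      (mul_le_mul_of_nonneg_right (hy1.le.trans (le_max_left _ _)) (nrm_nonneg y v))
  · intro w
    exact (ContinuousLinearMap.le_opNorm
      ((trivializationAt E (fun x : M => TangentSpace 𝓘(ℝ, E) x) a).symmL ℝ y) w).trans
      (mul_le_mul_of_nonneg_right (hy2.le.trans (le_max_right _ _)) (norm_nonneg w))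

end Riem

end Pool.Agent.Lib.MP_dedb2f_an
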