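import Pool.Agent.Lib.MP_dedb2f_an.Defs

set_option autoImplicit false

namespace Pool.Agent.Lib.MP_dedb2f_an

open Bundle Manifold Set

variable {E : Type*} [NormedAddCommGroup E] [NormedSpace ℝ E]
  {M : Type*} [TopologicalSpace M] [ChartedSpace E M] {U : Type*}
  (f : U → Diffeomorph 𝓘(ℝ, E) 𝓘(ℝ, E) M M 1)

theorem phi_zero (u : ℤ → U) : phi f 0 u = id := rfl

theorem phi_nat (u : ℤ → U) (n : ℕ) : phi f n u = fwd f u n := by
  simp [phi]

theorem phi_neg_nat (u : ℤ → U) (n : ℕ) : phi f (-(n : ℤ)) u = bwd f u n := by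
  rcases Nat.eq_zero_or_pos n with rfl | hn
  · rfl
  · have : ¬ (0 ≤ -(n : ℤ)) := by omega
    simp only [phi, this, if_false, neg_neg, Int.toNat_natCast]

theorem phi_succ (u : ℤ → U) (t : ℤ) : phi f (t + 1) u = f (u t) ∘ phi f t u := by
  rcases le_or_gt 0 t with h | h
  · obtain ⟨n, rfl⟩ := Int.eq_ofNat_of_zero_le h
    rw [show (n : ℤ) + 1 = ((n + 1 : ℕ) : ℤ) by push_cast; rfl, phi_nat, phi_nat]
    rfl
  · obtain ⟨n, hn⟩ : ∃ n : ℕ, t = -((n + 1 : ℕ) : ℤ) := ⟨(-t - 1).toNat, by omega⟩
    subst hn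
    rw [show -((n + 1 : ℕ) : ℤ) + 1 = -(n : ℤ) by push_cast; ring, phi_neg_nat, phi_neg_nat]
    funext x
    simp only [bwd, Function.comp, Nat.cast_add, Nat.cast_one]
    exact ((f _).apply_symm_apply _).symm

theorem phi_pred (u : ℤ → U) (t : ℤ) : phi f (t - 1) u = (f (u (t - 1))).symm ∘ phi f t u := by
  have := phi_succ f u (t - 1)
  rw [sub_add_cancel] at this
  rw [this]
  funext x
  exact ((f _).symm_apply_apply _).symm

theorem phi_of_orbit (u : ℤ → U) (y : ℤ → M) (h : ∀ t, y (t + 1) = f (u t) (y t)) (t : ℤ) :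
    phi f t u (y 0) = y t := by
  induction t using Int.induction_on with
  | zero => rfl
  | succ n ih => rw [phi_succ, Function.comp, ih, h]
  | pred n ih =>
    rw [phi_pred, Function.comp, ih]
    have := h (-(n : ℤ) - 1)
    rw [sub_add_cancel] at this
    rw [this]
    exact (f _).symm_apply_apply _

theorem phi_add (u : ℤ → U) (s t : ℤ) (x : M) :
    phi f t (fun r => u (r + s)) (phi f s u x) = phi f (t + s) u x := by
  have := phi_of_orbit f (fun r => u (r + s)) (fun r => phi f (r + s) u x) (fun r => by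
    rw [show r + 1 + s = (r + s) + 1 by ring, phi_succ]; rfl) t
  simpa using this

theorem Phi_add (s t : ℤ) (p : (ℤ → U) × M) : Phi f t (Phi f s p) = Phi f (t + s) p := by
  unfold Phi
  refine Prod.ext ?_ (phi_add f p.1 s t p.2)
  funext r
  simp [add_assoc]

theorem Phi_zero (p : (ℤ → U) × M) : Phi f 0 p = p := by
  unfold Phi
  simp [phi_zero]

theorem Phi_mem_lift {Q : Set M} {p : (ℤ → U) × M} (hp : p ∈ lift f Q) (t : ℤ) :
    Phi f t p ∈ lift f Q := by
  intro s
  have := hp (s + t)
  rw [← phi_add] at this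
  exact this

theorem phi_mdifferentiable (u : ℤ → U) (t : ℤ) :
    MDifferentiable 𝓘(ℝ, E) 𝓘(ℝ, E) (phi f t u) := by
  induction t using Int.induction_on with
  | zero => exact mdifferentiable_id
  | succ n ih => rw [phi_succ]; exact ((f _).mdifferentiable one_ne_zero).comp ih
  | pred n ih => rw [phi_pred]; exact ((f _).symm.mdifferentiable one_ne_zero).comp ih

theorem phi_continuous [TopologicalSpace U] (hf : Continuous (fun p : U × M => f p.1 p.2))
    (hfi : Continuous (fun p : U × M => (f p.1).symm p.2)) (t : ℤ) :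
    Continuous (fun p : (ℤ → U) × M => phi f t p.1 p.2) := by
  induction t using Int.induction_on with
  | zero => exact continuous_snd
  | succ n ih =>
    simp only [phi_succ]
    exact hf.comp (((continuous_apply _).comp continuous_fst).prodMk ih)
  | pred n ih =>
    simp only [phi_pred]
    exact hfi.comp (((continuous_apply _).comp continuous_fst).prodMk ih)

theorem lift_compact [TopologicalSpace U] [CompactSpace U] [T2Space M]
    (hf : Continuous (fun p : U × M => f p.1 p.2))
    (hfi : Continuous (fun p : U × M => (f p.1).symm p.2)) {Q : Set M} (hQ : IsCompact Q) :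
    IsCompact (lift f Q) := by
  have hc : IsClosed (lift f Q) := by
    have : lift f Q = ⋂ t, (fun p : (ℤ → U) × M => phi f t p.1 p.2) ⁻¹' Q := by
      ext; simp [lift]
    rw [this]
    exact isClosed_iInter (fun t => hQ.isClosed.preimage (phi_continuous f hf hfi t))
  refine (isCompact_univ.prod hQ).of_isClosed_subset hc ?_
  intro p hp
  exact ⟨mem_univ _, hp 0⟩

/-- the derivative as a map of the model space -/
noncomputable def D (g : M → M) (y : M) : E →L[ℝ] E := mfderiv 𝓘(ℝ, E) 𝓘(ℝ, E) g y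

theorem D_id (y : M) : D (E := E) (id : M → M) y = ContinuousLinearMap.id ℝ E := mfderiv_id

theorem D_comp {g h : M → M} (hg : MDifferentiable 𝓘(ℝ, E) 𝓘(ℝ, E) g)
    (hh : MDifferentiable 𝓘(ℝ, E) 𝓘(ℝ, E) h) (y : M) :
    D (E := E) (g ∘ h) y = (D g (h y)).comp (D h y) := mfderiv_comp y (hg _) (hh _)

theorem D_phi_succ (u : ℤ → U) (t : ℤ) (y : M) (w : E) :
    D (phi f (t + 1) u) y w = D (f (u t)) (phi f t u y) (D (phi f t u) y w) := by
  rw [phi_succ, D_comp ((f _).mdifferentiable one_ne_zero) (phi_mdifferentiable f u t)]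
  rfl

theorem D_phi_back (u : ℤ → U) (t : ℤ) (y : M) (w : E) :
    D (phi f (-t) (fun r => u (r + t))) (phi f t u y) (D (phi f t u) y w) = w := by
  have h1 : phi f (-t) (fun r => u (r + t)) ∘ phi f t u = id := by
    funext x
    rw [Function.comp, phi_add, neg_add_cancel, phi_zero]
  have h2 := D_comp (phi_mdifferentiable f (fun r => u (r + t)) (-t)) (phi_mdifferentiable f u t) y
  rw [h1, D_id] at h2
  exact (DFunLike.congr_fun h2 w).symm

end Pool.Agent.Lib.MP_dedb2f_an
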