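import Pool.Agent.Lib.MP_dedb2f_an.Green

set_option autoImplicit false

namespace Pool.Agent.Lib.MP_dedb2f_an

open Bundle Manifold Set Filter Topology Metric

variable {E : Type*} [NormedAddCommGroup E] [NormedSpace ℝ E]
  {M : Type*} [TopologicalSpace M] [ChartedSpace E M] {U : Type*}

theorem mem_lift_of_orbit [TopologicalSpace U] {f : U → Diffeomorph 𝓘(ℝ, E) 𝓘(ℝ, E) M M 1}
    {L N : Set ((ℤ → U) × M)}
    (hN : IsGreatest {S | S ⊆ N ∧ ∀ t : ℤ, Phi f t '' S = S} L) {p : (ℤ → U) × M}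
    (hp : ∀ t, Phi f t p ∈ N) : p ∈ L := by
  have h : range (fun t => Phi f t p) ∈ {S | S ⊆ N ∧ ∀ t : ℤ, Phi f t '' S = S} := by
    refine ⟨range_subset_iff.2 hp, fun t => ?_⟩
    ext q
    constructor
    · rintro ⟨_, ⟨s, rfl⟩, rfl⟩
      exact ⟨t + s, (Phi_add f s t p).symm⟩
    · rintro ⟨s, rfl⟩
      refine ⟨Phi f (s - t) p, ⟨s - t, rfl⟩, ?_⟩
      rw [Phi_add, add_sub_cancel]
  exact hN.2 h ⟨0, Phi_zero f p⟩

theorem continuation [FiniteDimensional ℝ E] [T2Space M] [IsManifold 𝓘(ℝ, E) 1 M]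
    [RiemannianBundle (fun x : M => TangentSpace 𝓘(ℝ, E) x)]
    [MetricSpace U] [CompactSpace U]
    {f : U → Diffeomorph 𝓘(ℝ, E) 𝓘(ℝ, E) M M 1} (hf : Continuous (fun p : U × M => f p.1 p.2))
    (hfi : Continuous (fun p : U × M => (f p.1).symm p.2))
    (hD : Continuous (fun p : U × TangentBundle 𝓘(ℝ, E) M =>
      tangentMap 𝓘(ℝ, E) 𝓘(ℝ, E) (f p.1) p.2))
    {Q : Set M} (hQ : IsHyperbolic f Q) (hI : IsIsolatedInvariant f (lift f Q))
    {F : Finset M} {R : M → ℝ} {C0 : ℝ} (hC0 : 0 < C0)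
    (hF : ∀ a ∈ F, closedBall (chartAt E a a) (R a) ⊆ (chartAt E a).target)
    (hb : ∀ a ∈ F, ∀ y ∈ KK E a (R a),
        (∀ v, ‖TT E a y v‖ ≤ C0 * nrm y v) ∧ ∀ w, nrm y (SS E a y w) ≤ C0 * ‖w‖)
    (hcov : ∀ x ∈ Q, ∃ a ∈ F, x ∈ KK E a (R a)) :
    ∃ B η0 ρ : ℝ, 0 < B ∧ 0 < η0 ∧ 0 < ρ ∧ ρ < 1 ∧ ∀ η, 0 < η → η ≤ η0 → ∃ δ > 0,
      ∀ u x, (u, x) ∈ lift f Q → ∀ a ∈ F, x ∈ KK E a (R a) → ∀ (v : ℤ → U) (ω : ℤ → ℝ),
        Slow ρ ω → (∀ t, dist (u t) (v t) < δ) → (∀ t, u t = v t ∨ ω t = 1) →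
        ∃ y ∈ fiber f Q v, y ∈ (chartAt E a).source ∧
          ‖chartAt E a y - chartAt E a x‖ ≤ B * η * ω 0 := by
  classical
  have := FiniteDimensional.complete ℝ E
  obtain ⟨Em, Ep, c, lam, H⟩ := hyp_of hQ
  have hc := H.c_ge
  have hl0 := H.lam_pos
  have hl1 := H.lam_lt
  obtain ⟨L, hL0, hL⟩ := DF_bound f hf hD hF
  obtain ⟨Cp, hCp, hP⟩ := proj_bound H (by positivity) (L_bound hC0 hL0 hb hcov hL)
  obtain ⟨B, κ, hB, hκ, hcore⟩ := core (E := E) (C := C0 * c * Cp * C0 / lam) (lam := lam)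
    (ρ := (1 + lam) / 2) (by positivity) hl0.le (by linarith) (by linarith)
  obtain ⟨δκ, hδκ, hκ'⟩ := unif_est f hf hD hF hκ
  obtain ⟨N, hN, hNg⟩ := hI
  obtain ⟨δN, hδN, hN'⟩ := iso_est (lift_compact f hf hfi hQ.2.1) hN hF
  set r := min δκ δN / 2 with hr
  have hr0 : 0 < r := by positivity
  have hr1 : r < δκ := by
    have := min_le_left δκ δN
    linarith [lt_min hδκ hδN]
  have hr2 : r < δN := by
    have := min_le_right δκ δN
    linarith [lt_min hδκ hδN]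
  refine ⟨B, r / B, (1 + lam) / 2, hB, by positivity, by positivity, by linarith,
    fun η hη hη0 => ?_⟩
  obtain ⟨δη, hδη, hη'⟩ := unif_est f hf hD hF hη
  refine ⟨min δη r, lt_min hδη hr0, fun u x hp a ha hxa v ω hω huv hsame => ?_⟩
  have huv1 : ∀ t, dist (u t) (v t) < δη := fun t => (huv t).trans_le (min_le_left _ _)
  have huv2 : ∀ t, dist (u t) (v t) < r := fun t => (huv t).trans_le (min_le_right _ _)
  choose j hjF hj using fun t => hcov _ (hp t)
  set ι : ℤ → M := fun t => if t = 0 then a else j t with hιdef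
  have hιF : ∀ t, ι t ∈ F := by
    intro t
    by_cases h : t = 0
    · simp only [hιdef, if_pos h]; exact ha
    · simp only [hιdef, if_neg h]; exact hjF t
  set X : ℤ → M := fun t => phi f t u x with hX
  have hι : ∀ t, X t ∈ KK E (ι t) (R (ι t)) := by
    intro t
    by_cases h : t = 0
    · subst h; exact hxa
    · simp only [hιdef, if_neg h]; exact hj t
  have hXs : ∀ t, X (t + 1) = f (u t) (X t) := by
    intro t
    simp only [hX]
    rw [phi_succ]; rfl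
  have hι1 : ∀ t, f (u t) (X t) ∈ KK E (ι (t + 1)) (R (ι (t + 1))) := fun t => hXs t ▸ hι (t + 1)
  obtain ⟨Γ, hΓ1, hΓ2⟩ := exists_green H hC0 hCp hb hP u x hp ι hιF hι
  set z : ℤ → E := fun t => chartAt E (ι t) (X t) with hz
  have hnear : ∀ t ξ, ‖ξ‖ ≤ r → _ := fun t ξ hξ =>
    hκ' _ (hιF t) _ (hιF (t + 1)) (u t) (X t) (hι t) (hι1 t) (v t) (z t + ξ)
      ((huv2 t).trans hr1) (by rw [add_sub_cancel_left]; exact hξ.trans_lt hr1)
  obtain ⟨ξ, hξ1, hξ2⟩ := hcore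
    (fun t => DF (f (u t)) (ι t) (ι (t + 1)) (z t)) Γ
    (fun t ξ => chartAt E (ι (t + 1)) (f (v t) ((chartAt E (ι t)).symm (z t + ξ))) - z (t + 1))
    r η ω hΓ1 hΓ2 (fun t p q hp hq => by
      have := Convex.norm_image_sub_le_of_norm_hasFDerivWithin_le' (𝕜 := ℝ)
        (f := fun ξ => chartAt E (ι (t + 1)) (f (v t) ((chartAt E (ι t)).symm (z t + ξ)))
          - z (t + 1))
        (f' := fun ξ => DF (f (v t)) (ι t) (ι (t + 1)) (z t + ξ))
        (φ := DF (f (u t)) (ι t) (ι (t + 1)) (z t)) (s := closedBall 0 r) (C := κ)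
        (fun w hw => ?_) (fun w hw => (hnear t w (mem_closedBall_zero_iff.1 hw)).2.2.2)
        (convex_closedBall _ _) (mem_closedBall_zero_iff.2 hq) (mem_closedBall_zero_iff.2 hp)
      · exact this
      · have h1 := hnear t w (mem_closedBall_zero_iff.1 hw)
        have h2 := hasFDerivAt_loc ((f (v t)).mdifferentiable one_ne_zero) h1.1 h1.2.1
        have h3 := ((hasFDerivAt_comp_add_left (z t)).2 h2).sub_const (z (t + 1))
        exact h3.hasFDerivWithinAt)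
    hω hη.le (by rw [le_div_iff₀ hB] at hη0; linarith) (fun t => by
      simp only [add_zero, hz, (chartAt E (ι t)).left_inv (hι t).1]
      rcases hsame t with h | h
      · rw [← h, hXs, sub_self, norm_zero]
        exact mul_nonneg hη.le (hω.1 t)
      · have h1 := (hη' _ (hιF t) _ (hιF (t + 1)) (u t) (X t) (hι t) (hι1 t) (v t) (z t)
          (huv1 t) (by simp only [hz, sub_self, norm_zero]; exact hδη)).2.2.1
        simp only [hz, (chartAt E (ι t)).left_inv (hι t).1] at h1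
        rw [h, mul_one, hXs]
        exact h1)
  have hξr : ∀ t, ‖ξ t‖ ≤ r := by
    intro t
    refine (hξ1 t).trans ?_
    rw [le_div_iff₀ hB] at hη0
    have := hω.2.1 t
    have h1 : B * η * ω t ≤ B * η * 1 := by gcongr
    linarith
  set y : ℤ → M := fun t => (chartAt E (ι t)).symm (z t + ξ t) with hy
  have hyo : ∀ t, y (t + 1) = f (v t) (y t) := by
    intro t
    simp only [hy]
    rw [hξ2 t, add_sub_cancel]
    exact (chartAt E (ι (t + 1))).left_inv (hnear t _ (hξr t)).2.1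
  have hmem : (v, y 0) ∈ lift f Q := by
    refine mem_lift_of_orbit hNg (fun t => ?_)
    have h1 := hN' _ (hιF t) _ (Phi_mem_lift f hp t) (hι t) (fun s => v (s + t)) (z t + ξ t)
      (fun s => (huv2 _).trans hr2) (by
        show ‖z t + ξ t - z t‖ < δN
        rw [add_sub_cancel_left]; exact (hξr t).trans_lt hr2)
    have h2 : Phi f t (v, y 0) = (fun s => v (s + t), y t) := by
      unfold Phi
      rw [phi_of_orbit f v y hyo t]
    rw [h2]
    exact h1
  have ht0 : z 0 + ξ 0 ∈ (chartAt E a).target := (hnear 0 _ (hξr 0)).1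
  refine ⟨y 0, hmem, (chartAt E a).map_target ht0, ?_⟩
  have e : chartAt E a (y 0) = z 0 + ξ 0 := (chartAt E a).right_inv ht0
  have e' : chartAt E a x = z 0 := rfl
  rw [e, e', add_sub_cancel_left]
  exact hξ1 0

end Pool.Agent.Lib.MP_dedb2f_an
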