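import Mathlib

set_option autoImplicit false

namespace Pool.Agent.Lib.MP_dedb2f_an

open Filter Topology Set
open scoped BoundedContinuousFunction

theorem summable_geom_int {μ : ℝ} (h0 : 0 ≤ μ) (h1 : μ < 1) :
    Summable (fun k : ℤ => μ ^ k.natAbs) := by
  apply Summable.of_nat_of_neg
  · simpa using summable_geometric_of_lt_one h0 h1
  · simpa using summable_geometric_of_lt_one h0 h1

theorem summable_geom_sub {μ : ℝ} (h0 : 0 ≤ μ) (h1 : μ < 1) (t : ℤ) :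
    Summable (fun s : ℤ => μ ^ (t - s).natAbs) :=
  (Equiv.subLeft t).summable_iff.2 (summable_geom_int h0 h1)

theorem tsum_geom_sub (μ : ℝ) (t : ℤ) :
    ∑' s : ℤ, μ ^ (t - s).natAbs = ∑' k : ℤ, μ ^ k.natAbs :=
  (Equiv.subLeft t).tsum_eq (fun k : ℤ => μ ^ k.natAbs)

/-- slowly varying weights -/
def Slow (ρ : ℝ) (ω : ℤ → ℝ) : Prop :=
  (∀ t, 0 ≤ ω t) ∧ (∀ t, ω t ≤ 1) ∧ ∀ s t, ρ ^ (t - s).natAbs * ω s ≤ ω t

variable {E : Type*} [NormedAddCommGroup E] [NormedSpace ℝ E] [CompleteSpace E]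

theorem green_bound {C lam ρ : ℝ} (hC : 0 ≤ C) (hlam : 0 ≤ lam) (hρ : lam < ρ)
    (Γ : ℤ → ℤ → E →ₗ[ℝ] E) (hΓ : ∀ t s w, ‖Γ t s w‖ ≤ C * lam ^ (t - s).natAbs * ‖w‖)
    {ω : ℤ → ℝ} (hω : ∀ s t, ρ ^ (t - s).natAbs * ω s ≤ ω t) {K : ℝ} (hK : 0 ≤ K)
    (h : ℤ → E) (hh : ∀ s, ‖h s‖ ≤ K * ω s) (t : ℤ) :
    Summable (fun s => Γ t s (h s)) ∧
      ‖∑' s, Γ t s (h s)‖ ≤ C * (∑' k : ℤ, (lam / ρ) ^ k.natAbs) * K * ω t := by
  have hρ0 : 0 < ρ := lt_of_le_of_lt hlam hρ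
  have hμ0 : 0 ≤ lam / ρ := div_nonneg hlam hρ0.le
  have hμ1 : lam / ρ < 1 := (div_lt_one hρ0).2 hρ
  have hb : ∀ s, ‖Γ t s (h s)‖ ≤ C * K * ω t * (lam / ρ) ^ (t - s).natAbs := by
    intro s
    have e : lam ^ (t - s).natAbs = (lam / ρ) ^ (t - s).natAbs * ρ ^ (t - s).natAbs := by
      rw [← mul_pow, div_mul_cancel₀ _ hρ0.ne']
    calc ‖Γ t s (h s)‖ ≤ C * lam ^ (t - s).natAbs * ‖h s‖ := hΓ t s _
      _ ≤ C * lam ^ (t - s).natAbs * (K * ω s) :=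
          mul_le_mul_of_nonneg_left (hh s) (by positivity)
      _ = C * K * (lam / ρ) ^ (t - s).natAbs * (ρ ^ (t - s).natAbs * ω s) := by rw [e]; ring
      _ ≤ C * K * (lam / ρ) ^ (t - s).natAbs * ω t :=
          mul_le_mul_of_nonneg_left (hω s t) (by positivity)
      _ = _ := by ring
  have hs := (summable_geom_sub hμ0 hμ1 t).mul_left (C * K * ω t)
  refine ⟨Summable.of_norm_bounded hs hb, ?_⟩
  refine (tsum_of_norm_bounded hs.hasSum hb).trans (le_of_eq ?_)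
  rw [tsum_mul_left, tsum_geom_sub]; ring

/-- Shadowing in a Banach space, with a weighted estimate. -/
theorem core {C lam ρ : ℝ} (hC : 0 < C) (hlam : 0 ≤ lam) (hρ : lam < ρ) (hρ1 : ρ ≤ 1) :
    ∃ B κ : ℝ, 0 < B ∧ 0 < κ ∧
      ∀ (A : ℤ → E →L[ℝ] E) (Γ : ℤ → ℤ → E →ₗ[ℝ] E) (g : ℤ → E → E) (r η : ℝ) (ω : ℤ → ℝ),
        (∀ t s w, ‖Γ t s w‖ ≤ C * lam ^ (t - s).natAbs * ‖w‖) →
        (∀ t s w, Γ (t + 1) s w = A t (Γ t s w) + if t = s then w else 0) →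
        (∀ t x y, ‖x‖ ≤ r → ‖y‖ ≤ r → ‖g t x - g t y - A t (x - y)‖ ≤ κ * ‖x - y‖) →
        Slow ρ ω → 0 ≤ η → B * η ≤ r → (∀ t, ‖g t 0‖ ≤ η * ω t) →
        ∃ ξ : ℤ → E, (∀ t, ‖ξ t‖ ≤ B * η * ω t) ∧ ∀ t, ξ (t + 1) = g t (ξ t) := by
  have hρ0 : 0 < ρ := lt_of_le_of_lt hlam hρ
  have hμ0 : 0 ≤ lam / ρ := div_nonneg hlam hρ0.le
  have hμ1 : lam / ρ < 1 := (div_lt_one hρ0).2 hρ
  set Z := ∑' k : ℤ, (lam / ρ) ^ k.natAbs with hZ
  have hZ1 : 1 ≤ Z := by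
    have := (summable_geom_int hμ0 hμ1).le_tsum 0 (fun k _ => by positivity)
    simpa using this
  have hCZ : 0 < C * Z := by positivity
  refine ⟨2 * (C * Z), 1 / (2 * (C * Z)), by positivity, by positivity, ?_⟩
  intro A Γ g r η ω hΓ hrec hg hω hη hr hg0
  set B := 2 * (C * Z) with hB
  have hBpos : 0 < B := by positivity
  set R : ℤ → E → E := fun t x => g t x - A t x with hR
  have hRlip : ∀ t x y, ‖x‖ ≤ r → ‖y‖ ≤ r → ‖R t x - R t y‖ ≤ 1 / B * ‖x - y‖ := by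
    intro t x y hx hy
    have := hg t x y hx hy
    rw [map_sub] at this
    have e : R t x - R t y = g t x - g t y - (A t x - A t y) := by simp only [hR]; abel
    rw [e]; exact this
  have hr0 : 0 ≤ r := le_trans (by positivity) hr
  set S : Set (ℤ →ᵇ E) := {ξ | ∀ t, ‖ξ t‖ ≤ B * η * ω t} with hS
  have hSr : ∀ ξ ∈ S, ∀ t, ‖ξ t‖ ≤ r := by
    intro ξ hξ t
    refine (hξ t).trans (le_trans ?_ hr)
    exact mul_le_of_le_one_right (by positivity) (hω.2.1 t)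
  have hRb : ∀ ξ ∈ S, ∀ t, ‖R t (ξ t)‖ ≤ 2 * η * ω t := by
    intro ξ hξ t
    have h1 := hRlip t (ξ t) 0 (hSr ξ hξ t) (by simpa using hr0)
    have h2 : R t 0 = g t 0 := by simp [hR]
    rw [h2, sub_zero] at h1
    have h3 : 1 / B * ‖ξ t‖ ≤ η * ω t := by
      calc 1 / B * ‖ξ t‖ ≤ 1 / B * (B * η * ω t) :=
            mul_le_mul_of_nonneg_left (hξ t) (by positivity)
        _ = η * ω t := by field_simp
    have h4 := norm_add_le (R t (ξ t) - g t 0) (g t 0)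
    rw [sub_add_cancel] at h4
    linarith [hg0 t]
  have hTb : ∀ ξ ∈ S, ∀ t, Summable (fun s => Γ t s (R s (ξ s))) ∧
      ‖∑' s, Γ t s (R s (ξ s))‖ ≤ B * η * ω t := by
    intro ξ hξ t
    obtain ⟨h1, h2⟩ := green_bound hC.le hlam hρ Γ hΓ hω.2.2 (K := 2 * η) (by positivity)
      (fun s => R s (ξ s)) (hRb ξ hξ) t
    refine ⟨h1, h2.trans (le_of_eq ?_)⟩
    rw [← hZ, hB]; ring
  classical
  let T : (ℤ →ᵇ E) → (ℤ →ᵇ E) := fun ξ =>
    if hξ : ξ ∈ S then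
      BoundedContinuousFunction.ofNormedAddCommGroupDiscrete (fun t => ∑' s, Γ t s (R s (ξ s)))
        (B * η) (fun t => (hTb ξ hξ t).2.trans
          (mul_le_of_le_one_right (by positivity) (hω.2.1 t)))
    else 0
  have hT : ∀ ξ ∈ S, ∀ t, T ξ t = ∑' s, Γ t s (R s (ξ s)) := by
    intro ξ hξ t
    simp only [T, dif_pos hξ]
    rfl
  have hmaps : MapsTo T S S := by
    intro ξ hξ t
    rw [hT ξ hξ t]
    exact (hTb ξ hξ t).2
  have hclosed : IsClosed S := by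
    have : S = ⋂ t, {ξ : ℤ →ᵇ E | ‖ξ t‖ ≤ B * η * ω t} := by ext; simp [hS]
    rw [this]
    exact isClosed_iInter (fun t => isClosed_le
      (by fun_prop) continuous_const)
  have hcontr : ContractingWith (1 / 2) (hmaps.restrict T S S) := by
    refine ⟨by norm_num, LipschitzWith.of_dist_le_mul ?_⟩
    rintro ⟨ξ, hξ⟩ ⟨ζ, hζ⟩
    change dist (T ξ) (T ζ) ≤ _ * dist ξ ζ
    rw [BoundedContinuousFunction.dist_le (by positivity)]
    intro t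
    rw [hT ξ hξ, hT ζ hζ, dist_eq_norm, ← (hTb ξ hξ t).1.tsum_sub (hTb ζ hζ t).1]
    simp only [← map_sub]
    have hd : ∀ s, ‖R s (ξ s) - R s (ζ s)‖ ≤ (1 / B * dist ξ ζ) * (fun _ => (1 : ℝ)) s := by
      intro s
      refine (hRlip s _ _ (hSr ξ hξ s) (hSr ζ hζ s)).trans ?_
      rw [mul_one]
      apply mul_le_mul_of_nonneg_left _ (by positivity)
      rw [← dist_eq_norm]
      exact BoundedContinuousFunction.dist_coe_le_dist s
    have := (green_bound hC.le hlam hρ Γ hΓ (ω := fun _ => 1)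
      (fun s t => by simpa using pow_le_one₀ hρ0.le hρ1) (by positivity) _ hd t).2
    refine this.trans (le_of_eq ?_)
    rw [← hZ, hB]
    push_cast
    field_simp
  have h0 : (0 : ℤ →ᵇ E) ∈ S := fun t => by
    simpa using mul_nonneg (by positivity) (hω.1 t)
  obtain ⟨ξ, hξ, hfix, -⟩ := hcontr.exists_fixedPoint' hclosed.isComplete hmaps h0 (edist_ne_top _ _)
  refine ⟨ξ, hξ, fun t => ?_⟩
  have e : ∀ t, ξ t = ∑' s, Γ t s (R s (ξ s)) := by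
    intro t
    rw [← hT ξ hξ t, hfix.eq]
  have h1 : ξ (t + 1) = A t (ξ t) + R t (ξ t) := by
    rw [e (t + 1)]
    conv_rhs => rw [e t, (A t).map_tsum (hTb ξ hξ t).1, ← e t]
    simp only [hrec]
    rw [Summable.tsum_add ((hTb ξ hξ t).1.mapL (A t)) (summable_of_ne_finset_zero (s := {t})
      (fun s hs => if_neg (fun h => hs (by simp [h]))))]
    congr 1
    rw [tsum_eq_single t (fun s hs => if_neg (fun h => hs h.symm))]
    simp
  rw [h1]; simp [hR]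

end Pool.Agent.Lib.MP_dedb2f_an
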