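import Mathlib

set_option autoImplicit false

namespace Pool.Agent.Lib.MP_dedb2f_an

open Bundle Manifold Set

variable {E : Type*} [NormedAddCommGroup E] [NormedSpace ℝ E]
  {M : Type*} [TopologicalSpace M] [ChartedSpace E M] {U : Type*}

/-- `f_{u_{n-1}} ∘ ⋯ ∘ f_{u_0}` -/
noncomputable def fwd (f : U → Diffeomorph 𝓘(ℝ, E) 𝓘(ℝ, E) M M 1) (u : ℤ → U) : ℕ → M → M
  | 0 => id
  | n + 1 => f (u n) ∘ fwd f u n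

/-- `f_{u_{-n}}⁻¹ ∘ ⋯ ∘ f_{u_{-1}}⁻¹` -/
noncomputable def bwd (f : U → Diffeomorph 𝓘(ℝ, E) 𝓘(ℝ, E) M M 1) (u : ℤ → U) : ℕ → M → M
  | 0 => id
  | n + 1 => (f (u (-((n : ℤ) + 1)))).symm ∘ bwd f u n

/-- `φ_{t,u}` -/
noncomputable def phi (f : U → Diffeomorph 𝓘(ℝ, E) 𝓘(ℝ, E) M M 1) (t : ℤ) (u : ℤ → U) : M → M :=
  if 0 ≤ t then fwd f u t.toNat else bwd f u (-t).toNat

/-- the skew product `Φ_t (u, x) = (θ^t u, φ(t, x, u))` -/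
noncomputable def Phi (f : U → Diffeomorph 𝓘(ℝ, E) 𝓘(ℝ, E) M M 1) (t : ℤ) (p : (ℤ → U) × M) : (ℤ → U) × M :=
  (fun s => p.1 (s + t), phi f t p.1 p.2)

/-- the lift `L(Q)` -/
def lift (f : U → Diffeomorph 𝓘(ℝ, E) 𝓘(ℝ, E) M M 1) (Q : Set M) : Set ((ℤ → U) × M) :=
  {p | ∀ t : ℤ, phi f t p.1 p.2 ∈ Q}

/-- the fiber `Q(u)` -/
def fiber (f : U → Diffeomorph 𝓘(ℝ, E) 𝓘(ℝ, E) M M 1) (Q : Set M) (u : ℤ → U) : Set M :=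
  {x | ∀ t : ℤ, phi f t u x ∈ Q}

/-- hyperbolic set: nonempty, compact, all-time controlled invariant, with (H1), (H2), (H3) -/
def IsHyperbolic [RiemannianBundle (fun x : M => TangentSpace 𝓘(ℝ, E) x)]
    (f : U → Diffeomorph 𝓘(ℝ, E) 𝓘(ℝ, E) M M 1) (Q : Set M) : Prop :=
  Q.Nonempty ∧ IsCompact Q ∧ (∀ x ∈ Q, ∃ u : ℤ → U, ∀ t : ℤ, phi f t u x ∈ Q) ∧
  ∃ Em Ep : (p : (ℤ → U) × M) → Submodule ℝ (TangentSpace 𝓘(ℝ, E) p.2),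
    (∀ p ∈ lift f Q, IsCompl (Em p) (Ep p)) ∧
    (∀ p ∈ lift f Q, ∀ t : ℤ,
      (Em p).map (mfderiv 𝓘(ℝ, E) 𝓘(ℝ, E) (phi f t p.1) p.2).toLinearMap = Em (Phi f t p) ∧
      (Ep p).map (mfderiv 𝓘(ℝ, E) 𝓘(ℝ, E) (phi f t p.1) p.2).toLinearMap = Ep (Phi f t p)) ∧
    (∃ c lam : ℝ, 1 ≤ c ∧ 0 < lam ∧ lam < 1 ∧ ∀ p ∈ lift f Q, ∀ t : ℕ,
      (∀ v ∈ Em p, ‖mfderiv 𝓘(ℝ, E) 𝓘(ℝ, E) (phi f t p.1) p.2 v‖ ≤ c * lam ^ t * ‖v‖) ∧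
      (∀ v ∈ Ep p, ‖mfderiv 𝓘(ℝ, E) 𝓘(ℝ, E) (phi f (-t) p.1) p.2 v‖ ≤ c * lam ^ t * ‖v‖)) ∧
    (∃ k l : ℕ, ∀ p ∈ lift f Q, Module.finrank ℝ (Em p) = k ∧ Module.finrank ℝ (Ep p) = l)

/-- `L` is the largest `Φ`-invariant subset of some neighbourhood of itself -/
def IsIsolatedInvariant [TopologicalSpace U] (f : U → Diffeomorph 𝓘(ℝ, E) 𝓘(ℝ, E) M M 1)
    (L : Set ((ℤ → U) × M)) : Prop :=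
  ∃ N ∈ nhdsSet L, IsGreatest {S | S ⊆ N ∧ ∀ t : ℤ, Phi f t '' S = S} L

end Pool.Agent.Lib.MP_dedb2f_an
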