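import Pool.Agent.Lib.MP_dedb2f_an.Unif
import Pool.Agent.Lib.MP_dedb2f_an.Core

set_option autoImplicit false

namespace Pool.Agent.Lib.MP_dedb2f_an

open Bundle Manifold Set Filter Topology Metric

theorem exists_proj {E : Type*} [AddCommGroup E] [Module ℝ E] {p q : Submodule ℝ E}
    (h : IsCompl p q) : ∃ P : E →ₗ[ℝ] E, ∀ w, P w ∈ p ∧ w - P w ∈ q := by
  refine ⟨p.projection q h, fun w => ⟨Submodule.projection_apply_mem h w, ?_⟩⟩
  have := Submodule.projection_add_projection_eq_self h w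
  rw [← eq_sub_iff_add_eq'] at this
  rw [← this]
  exact Submodule.projection_apply_mem h.symm w

variable {E : Type*} [NormedAddCommGroup E] [NormedSpace ℝ E]
  {M : Type*} [TopologicalSpace M] [ChartedSpace E M] {U : Type*}
  [RiemannianBundle (fun x : M => TangentSpace 𝓘(ℝ, E) x)]

/-- the part of hyperbolicity that is used, in the model space -/
structure Hyp (f : U → Diffeomorph 𝓘(ℝ, E) 𝓘(ℝ, E) M M 1) (Q : Set M)
    (Em Ep : (ℤ → U) × M → Submodule ℝ E) (c lam : ℝ) : Prop where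
  c_ge : 1 ≤ c
  lam_pos : 0 < lam
  lam_lt : lam < 1
  compl : ∀ p ∈ lift f Q, IsCompl (Em p) (Ep p)
  inv : ∀ p ∈ lift f Q, ∀ t : ℤ, ∀ v ∈ Ep p, D (E := E) (phi f t p.1) p.2 v ∈ Ep (Phi f t p)
  st : ∀ p ∈ lift f Q, ∀ n : ℕ, ∀ v ∈ Em p,
    nrm (phi f n p.1 p.2) (D (E := E) (phi f n p.1) p.2 v) ≤ c * lam ^ n * nrm p.2 v
  un : ∀ p ∈ lift f Q, ∀ n : ℕ, ∀ v ∈ Ep p,
    nrm (phi f (-n) p.1 p.2) (D (E := E) (phi f (-n) p.1) p.2 v) ≤ c * lam ^ n * nrm p.2 v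

theorem hyp_of {f : U → Diffeomorph 𝓘(ℝ, E) 𝓘(ℝ, E) M M 1} {Q : Set M} (h : IsHyperbolic f Q) :
    ∃ (Em Ep : (ℤ → U) × M → Submodule ℝ E) (c lam : ℝ), Hyp f Q Em Ep c lam := by
  obtain ⟨-, -, -, Em, Ep, h1, h2, ⟨c, lam, hc, hl0, hl1, h3⟩, -⟩ := h
  refine ⟨fun p => Em p, fun p => Ep p, c, lam, hc, hl0, hl1, h1, fun p hp t v hv => ?_,
    fun p hp n v hv => (h3 p hp n).1 v hv, fun p hp n v hv => (h3 p hp n).2 v hv⟩
  have := Submodule.mem_map_of_mem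
    (f := (mfderiv 𝓘(ℝ, E) 𝓘(ℝ, E) (phi f t p.1) p.2).toLinearMap) hv
  rw [(h2 p hp t).2] at this
  exact this

theorem proj_bound {f : U → Diffeomorph 𝓘(ℝ, E) 𝓘(ℝ, E) M M 1} {Q : Set M}
    {Em Ep : (ℤ → U) × M → Submodule ℝ E} {c lam : ℝ} (H : Hyp f Q Em Ep c lam) {L : ℝ}
    (hL0 : 0 < L)
    (hL : ∀ u, ∀ y ∈ Q, f u y ∈ Q → ∀ v, nrm (f u y) (D (E := E) (f u) y v) ≤ L * nrm y v) :
    ∃ Cp > 0, ∀ p ∈ lift f Q, ∀ v a : E, a ∈ Em p → v - a ∈ Ep p →
      nrm p.2 a ≤ Cp * nrm p.2 v ∧ nrm p.2 (v - a) ≤ Cp * nrm p.2 v := by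
  have hc := H.c_ge
  have hpow : ∀ p ∈ lift f Q, ∀ n : ℕ, ∀ v : E,
      nrm (phi f n p.1 p.2) (D (E := E) (phi f n p.1) p.2 v) ≤ L ^ n * nrm p.2 v := by
    intro p hp n v
    induction n with
    | zero =>
      simp only [Nat.cast_zero, phi_zero, D_id, pow_zero, one_mul]
      exact le_rfl
    | succ n ih =>
      have h1 := hp ((n : ℤ) + 1)
      push_cast
      rw [D_phi_succ]
      rw [phi_succ] at h1 ⊢
      refine (hL _ _ (hp n) h1 _).trans ?_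
      rw [pow_succ', mul_assoc]
      exact mul_le_mul_of_nonneg_left ih hL0.le
  obtain ⟨N, hN⟩ := exists_pow_lt_of_lt_one (show 0 < 1 / (2 * c) by positivity) H.lam_lt
  have hN' : c * lam ^ N ≤ 1 / 2 := by
    rw [lt_div_iff₀ (by positivity)] at hN
    linarith
  have hN0 : 0 ≤ c * lam ^ N := by have := H.lam_pos; positivity
  refine ⟨L ^ N + 2, by positivity, fun p hp v a ha hb => ?_⟩
  have h1 := H.un (Phi f N p) (Phi_mem_lift f hp N) N _ (H.inv p hp N _ hb)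
  have e1 : phi f (-(N : ℤ)) (Phi f N p).1 (Phi f N p).2 = p.2 := by
    have := congrArg Prod.snd (Phi_add f N (-(N : ℤ)) p)
    rw [neg_add_cancel, Phi_zero] at this
    exact this
  have e2 : D (E := E) (phi f (-(N : ℤ)) (Phi f N p).1) (Phi f N p).2
      (D (E := E) (phi f N p.1) p.2 (v - a)) = v - a := D_phi_back f p.1 N p.2 (v - a)
  rw [e1, e2, map_sub] at h1
  have h2 := nrm_sub_le (phi f N p.1 p.2) (D (E := E) (phi f N p.1) p.2 v)
    (D (E := E) (phi f N p.1) p.2 a)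
  have h3 := hpow p hp N v
  have h4 := H.st p hp N a ha
  have h5 := nrm_sub_le p.2 v (v - a)
  rw [sub_sub_cancel] at h5
  have n1 := nrm_nonneg p.2 v
  have n2 := nrm_nonneg p.2 a
  have n3 := nrm_nonneg p.2 (v - a)
  have n4 : 0 ≤ L ^ N * nrm p.2 v := by positivity
  have h6 : nrm p.2 (v - a) ≤ 1 / 2 * (L ^ N * nrm p.2 v + 1 / 2 * nrm p.2 a) := by
    refine h1.trans ?_
    refine mul_le_mul hN' (h2.trans (add_le_add h3 (h4.trans ?_))) (nrm_nonneg _ _) (by norm_num)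
    exact mul_le_mul_of_nonneg_right hN' n2
  constructor <;> nlinarith

variable [IsManifold 𝓘(ℝ, E) 1 M]

theorem L_bound {f : U → Diffeomorph 𝓘(ℝ, E) 𝓘(ℝ, E) M M 1} {Q : Set M} {F : Finset M}
    {R : M → ℝ} {C0 L : ℝ} (hC0 : 0 < C0) (hL0 : 0 < L)
    (hb : ∀ a ∈ F, ∀ y ∈ KK E a (R a),
        (∀ v, ‖TT E a y v‖ ≤ C0 * nrm y v) ∧ ∀ w, nrm y (SS E a y w) ≤ C0 * ‖w‖)
    (hcov : ∀ x ∈ Q, ∃ a ∈ F, x ∈ KK E a (R a))
    (hL : ∀ a ∈ F, ∀ b ∈ F, ∀ u y, y ∈ KK E a (R a) → f u y ∈ KK E b (R b) →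
      ‖DF (E := E) (f u) a b (chartAt E a y)‖ ≤ L) :
    ∀ u, ∀ y ∈ Q, f u y ∈ Q → ∀ v,
      nrm (f u y) (D (E := E) (f u) y v) ≤ (C0 * L * C0) * nrm y v := by
  intro u y hy hy' v
  obtain ⟨a, ha, hya⟩ := hcov y hy
  obtain ⟨b, hb', hyb⟩ := hcov _ hy'
  have e : D (E := E) (f u) y v = SS E b (f u y) (DF (f u) a b (chartAt E a y) (TT E a y v)) := by
    unfold DF
    simp only [ContinuousLinearMap.comp_apply, (chartAt E a).left_inv hya.1]
    rw [SS_TT hya.1, SS_TT hyb.1]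
  rw [e]
  refine ((hb b hb' _ hyb).2 _).trans ?_
  rw [mul_assoc, mul_assoc]
  refine mul_le_mul_of_nonneg_left ((ContinuousLinearMap.le_opNorm _ _).trans ?_) hC0.le
  exact mul_le_mul (hL a ha b hb' u y hya hyb) ((hb a ha y hya).1 v) (norm_nonneg _) hL0.le

theorem exists_green {f : U → Diffeomorph 𝓘(ℝ, E) 𝓘(ℝ, E) M M 1} {Q : Set M}
    {Em Ep : (ℤ → U) × M → Submodule ℝ E} {c lam : ℝ} (H : Hyp f Q Em Ep c lam)
    {F : Finset M} {R : M → ℝ} {C0 Cp : ℝ} (hC0 : 0 < C0) (hCp : 0 < Cp)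
    (hb : ∀ a ∈ F, ∀ y ∈ KK E a (R a),
        (∀ v, ‖TT E a y v‖ ≤ C0 * nrm y v) ∧ ∀ w, nrm y (SS E a y w) ≤ C0 * ‖w‖)
    (hP : ∀ p ∈ lift f Q, ∀ v a : E, a ∈ Em p → v - a ∈ Ep p →
      nrm p.2 a ≤ Cp * nrm p.2 v ∧ nrm p.2 (v - a) ≤ Cp * nrm p.2 v)
    (u : ℤ → U) (x : M) (hp : (u, x) ∈ lift f Q) (ι : ℤ → M) (hιF : ∀ t, ι t ∈ F)
    (hι : ∀ t, phi f t u x ∈ KK E (ι t) (R (ι t))) :
    ∃ Γ : ℤ → ℤ → E →ₗ[ℝ] E,
      (∀ t s w, ‖Γ t s w‖ ≤ (C0 * c * Cp * C0 / lam) * lam ^ (t - s).natAbs * ‖w‖) ∧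
      ∀ t s w, Γ (t + 1) s w =
        DF (f (u t)) (ι t) (ι (t + 1)) (chartAt E (ι t) (phi f t u x)) (Γ t s w)
          + if t = s then w else 0 := by
  have hc := H.c_ge
  have hl0 := H.lam_pos
  have hl1 := H.lam_lt
  choose P hP' using fun s => exists_proj (H.compl _ (Phi_mem_lift f hp s))
  set X : ℤ → M := fun t => phi f t u x with hX
  have hι' : ∀ t, X t ∈ KK E (ι t) (R (ι t)) := hι
  -- the cocycle read in charts, applied to a tangent vector at time `s`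
  set Aop : ℤ → ℤ → E →L[ℝ] E := fun t s =>
    (TT E (ι t) (X t)).comp (D (phi f (t - s) (fun r => u (r + s))) (X s)) with hA
  have hXts : ∀ t s, phi f (t - s) (fun r => u (r + s)) (X s) = X t := by
    intro t s
    simp only [hX]
    rw [phi_add, sub_add_cancel]
  have hstep : ∀ t s v, Aop (t + 1) s v =
      DF (f (u t)) (ι t) (ι (t + 1)) (chartAt E (ι t) (X t)) (Aop t s v) := by
    intro t s v
    unfold DF
    simp only [hA, ContinuousLinearMap.comp_apply, (chartAt E (ι t)).left_inv (hι' t).1]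
    rw [SS_TT (hι' t).1, show t + 1 - s = (t - s) + 1 by ring, D_phi_succ, hXts, sub_add_cancel]
    congr 1
    simp only [hX]
    rw [phi_succ]; rfl
  have hdiag : ∀ s v, Aop s s v = TT E (ι s) (X s) v := by
    intro s v
    simp only [hA, ContinuousLinearMap.comp_apply, sub_self, phi_zero, D_id]
    rfl
  have hst : ∀ t s, s ≤ t → ∀ v ∈ Em (Phi f s (u, x)),
      ‖Aop t s v‖ ≤ C0 * (c * lam ^ (t - s).natAbs * nrm (X s) v) := by
    intro t s hts v hv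
    refine ((hb _ (hιF t) _ (hι t)).1 _).trans (mul_le_mul_of_nonneg_left ?_ hC0.le)
    have h1 := H.st _ (Phi_mem_lift f hp s) (t - s).natAbs v hv
    rw [show (((t - s).natAbs : ℕ) : ℤ) = t - s by omega] at h1
    have h2 : nrm (phi f (t - s) (fun r => u (r + s)) (X s))
        (D (E := E) (phi f (t - s) (fun r => u (r + s))) (X s) v)
        ≤ c * lam ^ (t - s).natAbs * nrm (X s) v := h1
    rw [hXts] at h2
    exact h2
  have hun : ∀ t s, t ≤ s → ∀ v ∈ Ep (Phi f s (u, x)),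
      ‖Aop t s v‖ ≤ C0 * (c * lam ^ (t - s).natAbs * nrm (X s) v) := by
    intro t s hts v hv
    refine ((hb _ (hιF t) _ (hι t)).1 _).trans (mul_le_mul_of_nonneg_left ?_ hC0.le)
    have h1 := H.un _ (Phi_mem_lift f hp s) (t - s).natAbs v hv
    rw [show -(((t - s).natAbs : ℕ) : ℤ) = t - s by omega] at h1
    have h2 : nrm (phi f (t - s) (fun r => u (r + s)) (X s))
        (D (E := E) (phi f (t - s) (fun r => u (r + s))) (X s) v)
        ≤ c * lam ^ (t - s).natAbs * nrm (X s) v := h1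
    rw [hXts] at h2
    exact h2
  refine ⟨fun t s => if s + 1 ≤ t then
      (Aop t (s + 1)).toLinearMap ∘ₗ P (s + 1) ∘ₗ (SS E (ι (s + 1)) (X (s + 1))).toLinearMap
    else -((Aop t (s + 1)).toLinearMap ∘ₗ (LinearMap.id - P (s + 1)) ∘ₗ
      (SS E (ι (s + 1)) (X (s + 1))).toLinearMap), fun t s w => ?_, fun t s w => ?_⟩
  · have hS := (hb _ (hιF (s + 1)) _ (hι (s + 1))).2 w
    obtain ⟨q1, q2⟩ := hP' (s + 1) (SS E (ι (s + 1)) (X (s + 1)) w)
    obtain ⟨b1, b2⟩ := hP _ (Phi_mem_lift f hp (s + 1)) _ _ q1 q2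
    have hpw : lam ^ (t - (s + 1)).natAbs ≤ lam ^ (t - s).natAbs / lam := by
      rw [le_div_iff₀ hl0, ← pow_succ]
      exact pow_le_pow_of_le_one hl0.le hl1.le (by omega)
    have fin : ∀ n : ℝ, 0 ≤ n → n ≤ Cp * (C0 * ‖w‖) →
        C0 * (c * lam ^ (t - (s + 1)).natAbs * n)
          ≤ (C0 * c * Cp * C0 / lam) * lam ^ (t - s).natAbs * ‖w‖ := by
      intro n hn0 hn
      calc C0 * (c * lam ^ (t - (s + 1)).natAbs * n)
          ≤ C0 * (c * (lam ^ (t - s).natAbs / lam) * (Cp * (C0 * ‖w‖))) := by gcongr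
        _ = _ := by ring
    beta_reduce
    split_ifs with hts
    · refine (hst t (s + 1) hts _ q1).trans (fin _ (nrm_nonneg _ _) (b1.trans ?_))
      exact mul_le_mul_of_nonneg_left hS hCp.le
    · rw [LinearMap.neg_apply, norm_neg]
      refine (hun t (s + 1) (by omega) _ q2).trans (fin _ (nrm_nonneg _ _) (b2.trans ?_))
      exact mul_le_mul_of_nonneg_left hS hCp.le
  · beta_reduce
    rcases lt_trichotomy t s with h | h | h
    · rw [if_neg (by omega), if_neg (by omega), if_neg h.ne]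
      simp only [LinearMap.neg_apply, LinearMap.comp_apply, ContinuousLinearMap.coe_coe, map_neg,
        add_zero]
      rw [hstep]
    · subst h
      rw [if_pos le_rfl, if_neg (by omega), if_pos rfl]
      simp only [LinearMap.neg_apply, LinearMap.comp_apply, ContinuousLinearMap.coe_coe, map_neg,
        LinearMap.sub_apply, LinearMap.id_apply]
      rw [← hstep, hdiag, hdiag, map_sub, TT_SS (hι' (t + 1)).1]
      abel
    · rw [if_pos (by omega), if_pos (by omega), if_neg h.ne']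
      simp only [LinearMap.comp_apply, ContinuousLinearMap.coe_coe, add_zero]
      rw [hstep]

end Pool.Agent.Lib.MP_dedb2f_an
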