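import Pool.Agent.Lib.MP_dedb2f_an.Cont

set_option autoImplicit false

namespace Pool.Agent.Lib.MP_dedb2f_an

open Bundle Manifold Set Filter Topology Metric

/-- chains with `k` steps of length `< δ` -/
def Ch {U : Type*} [PseudoMetricSpace U] (δ : ℝ) : ℕ → U → U → Prop
  | 0, p, q => p = q
  | k + 1, p, q => ∃ r, dist p r < δ ∧ Ch δ k r q

section chains

variable {U : Type*} [PseudoMetricSpace U] {δ : ℝ}

theorem Ch_succ (hδ : 0 < δ) {k : ℕ} {p q : U} (h : Ch δ k p q) : Ch δ (k + 1) p q :=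
  ⟨p, by rwa [dist_self], h⟩

theorem Ch_mono (hδ : 0 < δ) {k l : ℕ} (hkl : k ≤ l) {p q : U} (h : Ch δ k p q) : Ch δ l p q := by
  induction hkl with
  | refl => exact h
  | step _ ih => exact Ch_succ hδ ih

theorem Ch_refl (hδ : 0 < δ) (k : ℕ) (p : U) : Ch δ k p p :=
  Ch_mono hδ (Nat.zero_le k) (show Ch δ 0 p p from rfl)

theorem Ch_trans {k l : ℕ} {p q r : U} (h1 : Ch δ k p q) (h2 : Ch δ l q r) :
    Ch δ (l + k) p r := by
  induction k generalizing p with
  | zero =>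
    have e : p = q := h1
    rw [e]; exact h2
  | succ k ih =>
    obtain ⟨s, hs, hs'⟩ := h1
    exact ⟨s, hs, ih hs'⟩

theorem Ch_one {p q : U} (h : dist p q < δ) : Ch δ 1 p q := ⟨q, h, rfl⟩

theorem exists_chain [CompactSpace U] [PreconnectedSpace U] (hδ : 0 < δ) :
    ∃ m : ℕ, ∀ p q : U, Ch δ m p q := by
  have h1 : ∀ p q : U, ∃ k, Ch δ k p q :=
    PreconnectedSpace.induction₂' (fun p q : U => ∃ k, Ch δ k p q)
      (fun p => by
        filter_upwards [ball_mem_nhds p hδ] with q hq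
        exact ⟨⟨1, Ch_one (by rwa [dist_comm])⟩, ⟨1, Ch_one hq⟩⟩)
      ⟨fun p q r ⟨_, h1⟩ ⟨_, h2⟩ => ⟨_, Ch_trans h1 h2⟩⟩
  choose k hk using h1
  obtain ⟨T, -, hT⟩ := (isCompact_univ (X := U × U)).elim_nhds_subcover
    (fun a => ball a δ) (fun a _ => ball_mem_nhds a hδ)
  refine ⟨1 + T.sup (fun a => k a.1 a.2) + 1, fun p q => ?_⟩
  obtain ⟨a, ha, hpq⟩ := mem_iUnion₂.1 (hT (mem_univ (p, q)))
  rw [mem_ball, Prod.dist_eq, max_lt_iff] at hpq
  refine Ch_trans (Ch_one hpq.1) (Ch_trans (Ch_mono hδ ?_ (hk a.1 a.2))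
    (Ch_one (by rw [dist_comm]; exact hpq.2)))
  exact Finset.le_sup (f := fun a : U × U => k a.1 a.2) ha

end chains

theorem slow_one {ρ : ℝ} (h0 : 0 ≤ ρ) (h1 : ρ ≤ 1) : Slow ρ (fun _ => 1) :=
  ⟨fun _ => zero_le_one, fun _ => le_rfl, fun _ _ => by
    rw [mul_one]; exact pow_le_one₀ h0 h1⟩

theorem slow_window {ρ : ℝ} (h0 : 0 ≤ ρ) (h1 : ρ ≤ 1) (N : ℕ) :
    Slow ρ (fun t => ρ ^ (N - t.natAbs)) :=
  ⟨fun _ => pow_nonneg h0 _, fun _ => pow_le_one₀ h0 h1, fun s t => by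
    rw [← pow_add]; exact pow_le_pow_of_le_one h0 h1 (by omega)⟩

variable {E : Type*} [NormedAddCommGroup E] [NormedSpace ℝ E]
  {M : Type*} [TopologicalSpace M] [ChartedSpace E M] {U : Type*}

theorem lsc [FiniteDimensional ℝ E] [T2Space M] [IsManifold 𝓘(ℝ, E) 1 M]
    [RiemannianBundle (fun x : M => TangentSpace 𝓘(ℝ, E) x)]
    [IsContinuousRiemannianBundle E (fun x : M => TangentSpace 𝓘(ℝ, E) x)]
    [MetricSpace U] [CompactSpace U] [PreconnectedSpace U]
    {f : U → Diffeomorph 𝓘(ℝ, E) 𝓘(ℝ, E) M M 1} (hf : Continuous (fun p : U × M => f p.1 p.2))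
    (hfi : Continuous (fun p : U × M => (f p.1).symm p.2))
    (hD : Continuous (fun p : U × TangentBundle 𝓘(ℝ, E) M =>
      tangentMap 𝓘(ℝ, E) 𝓘(ℝ, E) (f p.1) p.2))
    {Q : Set M} (hQ : IsHyperbolic f Q) (hI : IsIsolatedInvariant f (lift f Q))
    (u : ℤ → U) (x : M) (hx : x ∈ fiber f Q u) (V : Set M) (hV : IsOpen V) (hxV : x ∈ V) :
    ∀ᶠ v in 𝓝 u, (fiber f Q v ∩ V).Nonempty := by
  classical
  obtain ⟨F, R, C0, hC0, hF, hb, hcov⟩ := exists_cover (E := E) hQ.2.1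
  obtain ⟨B, η0, ρ, hB, hη0, hρ0, hρ1, hcont⟩ := continuation hf hfi hD hQ hI hC0 hF hb
    (fun x hx => by
      obtain ⟨a, ha, h1, h2⟩ := hcov x hx
      exact ⟨a, ha, h1, ball_subset_closedBall h2⟩)
  obtain ⟨a, ha, hxs, hxb⟩ := hcov x (hx 0)
  -- the margin
  have hO : IsOpen ((chartAt E a).target ∩ (chartAt E a).symm ⁻¹' V) :=
    (chartAt E a).symm.isOpen_inter_preimage hV
  obtain ⟨ε, hε, hεs⟩ := nhds_basis_closedBall.mem_iff.1
    (inter_mem (isOpen_ball.mem_nhds hxb) (hO.mem_nhds ⟨(chartAt E a).map_source hxs, by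
      rw [mem_preimage, (chartAt E a).left_inv hxs]; exact hxV⟩))
  obtain ⟨δ0, hδ0, hc0⟩ := hcont η0 hη0 le_rfl
  obtain ⟨m, hm⟩ := exists_chain (U := U) hδ0
  obtain ⟨δ1, hδ1, hc1⟩ := hcont (min η0 (ε / 2 / B)) (by positivity) (min_le_left _ _)
  obtain ⟨N, hN⟩ := exists_pow_lt_of_lt_one
    (show 0 < ε / 2 / ((m + 1) * (B * η0)) by positivity) hρ1
  have hN' : m * (B * η0 * ρ ^ N) ≤ ε / 2 := by
    rw [lt_div_iff₀ (by positivity)] at hN
    have : 0 ≤ B * η0 * ρ ^ N := by positivity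
    nlinarith
  have hstep : ∀ (v : ℤ → U) (k : ℕ) (w : ℤ → U) (y : M), (w, y) ∈ lift f Q →
      y ∈ (chartAt E a).source → (∀ t, Ch δ0 k (w t) (v t)) → (∀ t, t.natAbs ≤ N → w t = v t) →
      ‖chartAt E a y - chartAt E a x‖ + k * (B * η0 * ρ ^ N) ≤ ε →
      ∃ y' ∈ fiber f Q v, y' ∈ (chartAt E a).source ∧ ‖chartAt E a y' - chartAt E a x‖ ≤ ε := by
    intro v k
    induction k with
    | zero =>
      intro w y hwy hys hch _ hle
      have e : w = v := funext hch
      subst e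
      exact ⟨y, hwy, hys, by simpa using hle⟩
    | succ k ih =>
      intro w y hwy hys hch hwin hle
      choose r hr1 hr2 using hch
      have hk0 : 0 ≤ ((k + 1 : ℕ) : ℝ) * (B * η0 * ρ ^ N) := by positivity
      have hyK : y ∈ KK E a (R a) := ⟨hys, ball_subset_closedBall
        (hεs (mem_closedBall_iff_norm.2 (by linarith))).1⟩
      obtain ⟨y', hy'1, hy'2, hy'3⟩ := hc0 w y hwy a ha hyK
        (fun t => if t.natAbs ≤ N then v t else r t) _ (slow_window hρ0.le hρ1.le N)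
        (fun t => by
          by_cases h : t.natAbs ≤ N
          · rw [if_pos h, hwin t h, dist_self]; exact hδ0
          · rw [if_neg h]; exact hr1 t)
        (fun t => by
          by_cases h : t.natAbs ≤ N
          · left; rw [if_pos h, hwin t h]
          · right; rw [show N - t.natAbs = 0 by omega, pow_zero])
      refine ih (fun t => if t.natAbs ≤ N then v t else r t) y' hy'1 hy'2 (fun t => ?_)
        (fun t h => if_pos h) ?_
      · by_cases h : t.natAbs ≤ N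
        · rw [if_pos h]; exact Ch_refl hδ0 k _
        · rw [if_neg h]; exact hr2 t
      · have h1 := norm_sub_le_norm_sub_add_norm_sub (chartAt E a y') (chartAt E a y)
          (chartAt E a x)
        simp only [Int.natAbs_zero, Nat.sub_zero] at hy'3
        push_cast at hle
        linarith
  have hW : ∀ᶠ v in 𝓝 u, ∀ t ∈ Finset.Icc (-(N : ℤ)) N, dist (u t) (v t) < δ1 := by
    refine (eventually_all_finset _).2 (fun t _ => ?_)
    have h1 : Continuous (fun v : ℤ → U => dist (u t) (v t)) := by fun_prop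
    exact h1.continuousAt.eventually_lt continuousAt_const (by rwa [dist_self])
  filter_upwards [hW] with v hv
  obtain ⟨y, hy1, hy2, hy3⟩ := hc1 u x hx a ha ⟨hxs, ball_subset_closedBall hxb⟩
    (fun t => if t.natAbs ≤ N then v t else u t) _ (slow_one hρ0.le hρ1.le)
    (fun t => by
      by_cases h : t.natAbs ≤ N
      · rw [if_pos h]; exact hv t (Finset.mem_Icc.2 (by omega))
      · rw [if_neg h, dist_self]; exact hδ1)
    (fun t => Or.inr rfl)
  have hy4 : ‖chartAt E a y - chartAt E a x‖ ≤ ε / 2 := by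
    refine hy3.trans ?_
    rw [mul_one, ← le_div_iff₀' hB]
    exact min_le_right _ _
  obtain ⟨y', h1, h2, h3⟩ := hstep v m (fun t => if t.natAbs ≤ N then v t else u t) y hy1 hy2
    (fun t => hm _ _) (fun t h => if_pos h)
    (by linarith)
  refine ⟨y', h1, ?_⟩
  have h4 := (hεs (mem_closedBall_iff_norm.2 h3)).2.2
  rwa [mem_preimage, (chartAt E a).left_inv h2] at h4

end Pool.Agent.Lib.MP_dedb2f_an
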