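import Pool.Agent.Lib.MP_dedb2f_an.Chart

set_option autoImplicit false

namespace Pool.Agent.Lib.MP_dedb2f_an

open Bundle Manifold Set Filter Topology Metric

theorem unif_near {X Y : Type*} [PseudoMetricSpace X] [PseudoMetricSpace Y] {C W : Set X}
    (hC : IsCompact C) (hW : IsOpen W) (hCW : C ⊆ W) {g : X → Y} (hg : ContinuousOn g W)
    {ε : ℝ} (hε : 0 < ε) : ∃ δ > 0, ∀ p ∈ C, ∀ q, dist p q < δ → q ∈ W ∧ dist (g p) (g q) < ε := by
  have h1 := hC.uniformContinuousAt_of_continuousAt g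
    (fun a ha => hg.continuousAt (hW.mem_nhds (hCW ha))) (dist_mem_uniformity hε)
  obtain ⟨V, hV, -, hV'⟩ := lebesgue_number_of_compact_open hC hW hCW
  obtain ⟨δ, hδ, h⟩ := mem_uniformity_dist.1 (inter_mem h1 hV)
  exact ⟨δ, hδ, fun p hp q hpq => ⟨hV' p hp (h hpq).2, (h hpq).1 hp⟩⟩

theorem pi_entourage {U : Type*} [PseudoMetricSpace U] {V : Set ((ℤ → U) × (ℤ → U))}
    (hV : V ∈ uniformity (ℤ → U)) :
    ∃ δ > 0, ∀ u v : ℤ → U, (∀ t, dist (u t) (v t) < δ) → (u, v) ∈ V := by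
  rw [Pi.uniformity] at hV
  refine iInf_sets_induct hV ⟨1, one_pos, fun _ _ _ => mem_univ _⟩ ?_
  rintro i s1 s2 h1 ⟨δ, hδ, h2⟩
  obtain ⟨s, hs, hs'⟩ := mem_comap.1 h1
  obtain ⟨δ', hδ', h3⟩ := mem_uniformity_dist.1 hs
  refine ⟨min δ δ', lt_min hδ hδ', fun u v h => ⟨hs' (h3 ((h i).trans_le (min_le_right _ _))),
    h2 u v (fun t => (h t).trans_le (min_le_left _ _))⟩⟩

theorem finset_delta {ι : Type*} (F : Finset ι) {P : ι → ℝ → Prop}
    (mono : ∀ i δ δ', 0 < δ' → δ' ≤ δ → P i δ → P i δ') (h : ∀ i ∈ F, ∃ δ > 0, P i δ) :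
    ∃ δ > 0, ∀ i ∈ F, P i δ := by
  classical
  induction F using Finset.induction_on with
  | empty => exact ⟨1, one_pos, by simp⟩
  | insert a F _ ih =>
    obtain ⟨δ1, h1, h1'⟩ := ih (fun i hi => h i (Finset.mem_insert_of_mem hi))
    obtain ⟨δ2, h2, h2'⟩ := h a (Finset.mem_insert_self _ _)
    refine ⟨min δ1 δ2, lt_min h1 h2, fun i hi => ?_⟩
    rcases Finset.mem_insert.1 hi with rfl | hi
    · exact mono _ _ _ (lt_min h1 h2) (min_le_right _ _) h2'
    · exact mono _ _ _ (lt_min h1 h2) (min_le_left _ _) (h1' i hi)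

theorem finset_bound {ι : Type*} (F : Finset ι) {P : ι → ℝ → Prop}
    (mono : ∀ i C C', C ≤ C' → P i C → P i C') (h : ∀ i ∈ F, ∃ C, P i C) :
    ∃ C > 0, ∀ i ∈ F, P i C := by
  classical
  induction F using Finset.induction_on with
  | empty => exact ⟨1, one_pos, by simp⟩
  | insert a F _ ih =>
    obtain ⟨C1, h1, h1'⟩ := ih (fun i hi => h i (Finset.mem_insert_of_mem hi))
    obtain ⟨C2, h2'⟩ := h a (Finset.mem_insert_self _ _)
    refine ⟨max C1 C2, lt_max_of_lt_left h1, fun i hi => ?_⟩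
    rcases Finset.mem_insert.1 hi with rfl | hi
    · exact mono _ _ _ (le_max_right _ _) h2'
    · exact mono _ _ _ (le_max_left _ _) (h1' i hi)

variable {E : Type*} [NormedAddCommGroup E] [NormedSpace ℝ E]
  {M : Type*} [TopologicalSpace M] [ChartedSpace E M] {U : Type*}

/-- the preimage of a closed ball in the chart at `a` -/
def KK (E : Type*) [NormedAddCommGroup E] [ChartedSpace E M] (a : M) (R : ℝ) :
    Set M :=
  (chartAt E a).source ∩ chartAt E a ⁻¹' closedBall (chartAt E a a) R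

theorem KK_compact [FiniteDimensional ℝ E] {a : M} {R : ℝ}
    (h : closedBall (chartAt E a a) R ⊆ (chartAt E a).target) : IsCompact (KK E a R) := by
  have : KK E a R = (chartAt E a).symm '' closedBall (chartAt E a a) R := by
    rw [(chartAt E a).symm_image_eq_source_inter_preimage h]; rfl
  rw [this]
  have := FiniteDimensional.proper_real E
  exact (isCompact_closedBall _ _).image_of_continuousOn ((chartAt E a).continuousOn_symm.mono h)

theorem exists_cover [IsManifold 𝓘(ℝ, E) 1 M]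
    [RiemannianBundle (fun x : M => TangentSpace 𝓘(ℝ, E) x)]
    [IsContinuousRiemannianBundle E (fun x : M => TangentSpace 𝓘(ℝ, E) x)]
    {Q : Set M} (hQ : IsCompact Q) :
    ∃ (F : Finset M) (R : M → ℝ) (C0 : ℝ), 0 < C0 ∧
      (∀ a ∈ F, closedBall (chartAt E a a) (R a) ⊆ (chartAt E a).target) ∧
      (∀ a ∈ F, ∀ y ∈ KK E a (R a),
        (∀ v, ‖TT E a y v‖ ≤ C0 * nrm y v) ∧ ∀ w, nrm y (SS E a y w) ≤ C0 * ‖w‖) ∧
      ∀ x ∈ Q, ∃ a ∈ F, x ∈ (chartAt E a).source ∧ chartAt E a x ∈ ball (chartAt E a a) (R a) := by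
  have h1 : ∀ a : M, ∃ R : ℝ, 0 < R ∧ closedBall (chartAt E a a) R ⊆ (chartAt E a).target ∧
      ∃ C : ℝ, ∀ y ∈ KK E a R,
        (∀ v, ‖TT E a y v‖ ≤ C * nrm y v) ∧ ∀ w, nrm y (SS E a y w) ≤ C * ‖w‖ := by
    intro a
    obtain ⟨C, -, hC⟩ := local_bound (E := E) a
    have hc : ContinuousAt (chartAt E a).symm (chartAt E a a) :=
      (chartAt E a).continuousAt_symm (mem_chart_target E a)
    have hC' : ∀ᶠ y in 𝓝 ((chartAt E a).symm (chartAt E a a)),
        (∀ v, ‖TT E a y v‖ ≤ C * nrm y v) ∧ ∀ w, nrm y (SS E a y w) ≤ C * ‖w‖ := by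
      rw [(chartAt E a).left_inv (mem_chart_source E a)]; exact hC
    obtain ⟨R, hR, h⟩ := nhds_basis_closedBall.mem_iff.1
      (inter_mem (hc.eventually hC') (chart_target_mem_nhds E a))
    refine ⟨R, hR, fun z hz => (h hz).2, C, fun y hy => ?_⟩
    have := (h hy.2).1
    simp only [mem_ofPred_eq] at this
    rwa [(chartAt E a).left_inv hy.1] at this
  choose R hR hRt hC using h1
  obtain ⟨F, -, hF⟩ := hQ.elim_nhds_subcover
    (fun a => (chartAt E a).source ∩ chartAt E a ⁻¹' ball (chartAt E a a) (R a))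
    (fun a _ => ((chartAt E a).isOpen_inter_preimage isOpen_ball).mem_nhds
      ⟨mem_chart_source E a, mem_ball_self (hR a)⟩)
  obtain ⟨C0, hC0, hC0'⟩ := finset_bound F (P := fun a C => ∀ y ∈ KK E a (R a),
        (∀ v, ‖TT E a y v‖ ≤ C * nrm y v) ∧ ∀ w, nrm y (SS E a y w) ≤ C * ‖w‖)
    (fun a C C' hCC' h y hy =>
      ⟨fun v => ((h y hy).1 v).trans (mul_le_mul_of_nonneg_right hCC' (nrm_nonneg y v)),
       fun w => ((h y hy).2 w).trans (mul_le_mul_of_nonneg_right hCC' (norm_nonneg w))⟩)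
    (fun a _ => hC a)
  refine ⟨F, R, C0, hC0, fun a _ => hRt a, hC0', fun x hx => ?_⟩
  obtain ⟨a, ha, hxa⟩ := mem_iUnion₂.1 (hF hx)
  exact ⟨a, ha, hxa.1, hxa.2⟩

theorem CC_compact [FiniteDimensional ℝ E] [T2Space M] [TopologicalSpace U] [CompactSpace U]
    (f : U → Diffeomorph 𝓘(ℝ, E) 𝓘(ℝ, E) M M 1) (hf : Continuous (fun p : U × M => f p.1 p.2))
    {a b : M} {Ra Rb : ℝ} (ha : closedBall (chartAt E a a) Ra ⊆ (chartAt E a).target)
    (hb : closedBall (chartAt E b b) Rb ⊆ (chartAt E b).target) :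
    IsCompact {q : U × E | q.2 ∈ closedBall (chartAt E a a) Ra ∧
      f q.1 ((chartAt E a).symm q.2) ∈ KK E b Rb} := by
  have := FiniteDimensional.proper_real E
  have h1 : ContinuousOn (fun q : U × E => f q.1 ((chartAt E a).symm q.2))
      (Prod.snd ⁻¹' closedBall (chartAt E a a) Ra) :=
    hf.comp_continuousOn (f := fun q : U × E => (q.1, (chartAt E a).symm q.2))
      (continuousOn_fst.prodMk ((chartAt E a).continuousOn_symm.comp continuousOn_snd
        (fun q hq => ha hq)))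
  have h2 := h1.preimage_isClosed_of_isClosed (isClosed_closedBall.preimage continuous_snd)
    (KK_compact hb).isClosed
  exact (isCompact_univ.prod (isCompact_closedBall (chartAt E a a) Ra)).of_isClosed_subset h2
    (fun q hq => ⟨mem_univ _, hq.1⟩)

theorem unif_est [FiniteDimensional ℝ E] [T2Space M] [IsManifold 𝓘(ℝ, E) 1 M]
    [PseudoMetricSpace U] [CompactSpace U]
    (f : U → Diffeomorph 𝓘(ℝ, E) 𝓘(ℝ, E) M M 1) (hf : Continuous (fun p : U × M => f p.1 p.2))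
    (hD : Continuous (fun p : U × TangentBundle 𝓘(ℝ, E) M =>
      tangentMap 𝓘(ℝ, E) 𝓘(ℝ, E) (f p.1) p.2))
    {F : Finset M} {R : M → ℝ}
    (hF : ∀ a ∈ F, closedBall (chartAt E a a) (R a) ⊆ (chartAt E a).target)
    {ε : ℝ} (hε : 0 < ε) :
    ∃ δ > 0, ∀ a ∈ F, ∀ b ∈ F, ∀ u y, y ∈ KK E a (R a) → f u y ∈ KK E b (R b) →
      ∀ v w, dist u v < δ → ‖w - chartAt E a y‖ < δ →
        w ∈ (chartAt E a).target ∧ f v ((chartAt E a).symm w) ∈ (chartAt E b).source ∧
        ‖chartAt E b (f v ((chartAt E a).symm w)) - chartAt E b (f u y)‖ ≤ ε ∧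
        ‖DF (f v) a b w - DF (f u) a b (chartAt E a y)‖ ≤ ε := by
  refine finset_delta F (fun a δ δ' _ hle h b hb u y hy hy' v w h1 h2 =>
    h b hb u y hy hy' v w (h1.trans_le hle) (h2.trans_le hle)) (fun a ha => ?_)
  refine finset_delta F (fun b δ δ' _ hle h u y hy hy' v w h1 h2 =>
    h u y hy hy' v w (h1.trans_le hle) (h2.trans_le hle)) (fun b hb => ?_)
  obtain ⟨δ, hδ, h⟩ := unif_near (CC_compact f hf (hF a ha) (hF b hb))
    (isOpen_W f hf a (chartAt E b).open_source) (fun q hq => ⟨hF a ha hq.1, hq.2.1⟩)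
    ((continuousOn_F f hf a b).prodMk (continuousOn_DF f hD a b)) hε
  refine ⟨δ, hδ, fun u y hy hy' v w h1 h2 => ?_⟩
  have e := (chartAt E a).left_inv hy.1
  obtain ⟨h3, h4⟩ := h (u, chartAt E a y) ⟨hy.2, by simp only [e]; exact hy'⟩ (v, w) (by
    rw [Prod.dist_eq, max_lt_iff]
    exact ⟨h1, by rw [dist_comm, dist_eq_norm]; exact h2⟩)
  rw [Prod.dist_eq, max_lt_iff, dist_comm, dist_eq_norm, dist_comm, dist_eq_norm] at h4
  simp only [e] at h4
  exact ⟨h3.1, h3.2, h4.1.le, h4.2.le⟩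

theorem DF_bound [FiniteDimensional ℝ E] [T2Space M] [IsManifold 𝓘(ℝ, E) 1 M]
    [TopologicalSpace U] [CompactSpace U]
    (f : U → Diffeomorph 𝓘(ℝ, E) 𝓘(ℝ, E) M M 1) (hf : Continuous (fun p : U × M => f p.1 p.2))
    (hD : Continuous (fun p : U × TangentBundle 𝓘(ℝ, E) M =>
      tangentMap 𝓘(ℝ, E) 𝓘(ℝ, E) (f p.1) p.2))
    {F : Finset M} {R : M → ℝ}
    (hF : ∀ a ∈ F, closedBall (chartAt E a a) (R a) ⊆ (chartAt E a).target) :
    ∃ L > 0, ∀ a ∈ F, ∀ b ∈ F, ∀ u y, y ∈ KK E a (R a) → f u y ∈ KK E b (R b) →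
      ‖DF (E := E) (f u) a b (chartAt E a y)‖ ≤ L := by
  refine finset_bound F (fun a L L' hle h b hb u y hy hy' => (h b hb u y hy hy').trans hle)
    (fun a ha => ?_)
  obtain ⟨L, -, hL⟩ := finset_bound F (P := fun b L => ∀ u y, y ∈ KK E a (R a) →
      f u y ∈ KK E b (R b) → ‖DF (E := E) (f u) a b (chartAt E a y)‖ ≤ L)
    (fun b L L' hle h u y hy hy' => (h u y hy hy').trans hle) (fun b hb => by
      obtain ⟨L, hL⟩ := (CC_compact f hf (hF a ha) (hF b hb)).exists_bound_of_continuousOn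
        ((continuousOn_DF f hD a b).mono (fun q hq => ⟨hF a ha hq.1, hq.2.1⟩))
      refine ⟨L, fun u y hy hy' => hL (u, chartAt E a y) ⟨hy.2, ?_⟩⟩
      simp only [(chartAt E a).left_inv hy.1]; exact hy')
  exact ⟨L, hL⟩

theorem iso_est [FiniteDimensional ℝ E] [T2Space M] [MetricSpace U] [CompactSpace U]
    {L N : Set ((ℤ → U) × M)} (hL : IsCompact L) (hN : N ∈ 𝓝ˢ L) {F : Finset M} {R : M → ℝ}
    (hF : ∀ a ∈ F, closedBall (chartAt E a a) (R a) ⊆ (chartAt E a).target) :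
    ∃ δ > 0, ∀ a ∈ F, ∀ p ∈ L, p.2 ∈ KK E a (R a) → ∀ (v : ℤ → U) (w : E),
      (∀ t, dist (p.1 t) (v t) < δ) → ‖w - chartAt E a p.2‖ < δ →
        (v, (chartAt E a).symm w) ∈ N := by
  have := FiniteDimensional.proper_real E
  refine finset_delta F (fun a δ δ' _ hle h p hp hp' v w h1 h2 =>
    h p hp hp' v w (fun t => (h1 t).trans_le hle) (h2.trans_le hle)) (fun a ha => ?_)
  obtain ⟨O, hO, hLO, hON⟩ := mem_nhdsSet_iff_exists.1 hN
  have hc : ContinuousOn (fun q : (ℤ → U) × E => (q.1, (chartAt E a).symm q.2))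
      (Prod.snd ⁻¹' (chartAt E a).target) :=
    continuousOn_fst.prodMk ((chartAt E a).continuousOn_symm.comp continuousOn_snd
      (fun q hq => hq))
  have hW := hc.isOpen_inter_preimage ((chartAt E a).open_target.preimage continuous_snd) hO
  have hcl := (hc.mono (s := Prod.snd ⁻¹' (chartAt E a).target)
    (t := Prod.snd ⁻¹' closedBall (chartAt E a a) (R a))
    (fun q hq => hF a ha hq)).preimage_isClosed_of_isClosed
      (isClosed_closedBall.preimage continuous_snd) hL.isClosed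
  have hC := (isCompact_univ.prod (isCompact_closedBall (chartAt E a a) (R a))).of_isClosed_subset
    hcl (fun q hq => ⟨mem_univ _, hq.1⟩)
  obtain ⟨V, hV, -, hV'⟩ := lebesgue_number_of_compact_open hC hW
    (fun q hq => ⟨hF a ha hq.1, hLO hq.2⟩)
  obtain ⟨V1, hV1, V2, hV2, hsub⟩ := entourageProd_subset hV
  obtain ⟨δ1, hδ1, h1⟩ := pi_entourage hV1
  obtain ⟨δ2, hδ2, h2⟩ := mem_uniformity_dist.1 hV2
  refine ⟨min δ1 δ2, lt_min hδ1 hδ2, fun p hp hp' v w h3 h4 => hON ?_⟩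
  have hmem : (v, w) ∈ UniformSpace.ball (p.1, chartAt E a p.2) V := by
    apply hsub
    refine ⟨h1 _ _ (fun t => (h3 t).trans_le (min_le_left _ _)), h2 ?_⟩
    rw [dist_comm, dist_eq_norm]
    exact h4.trans_le (min_le_right _ _)
  refine (hV' (p.1, chartAt E a p.2) ⟨hp'.2, ?_⟩ hmem).2
  simp only [mem_preimage, (chartAt E a).left_inv hp'.1]
  exact hp

end Pool.Agent.Lib.MP_dedb2f_an
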